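import Mathlib

/-!
# Central extensions of Coxeter groups by a sign

For every Coxeter system and every sign choice `c`, the group `W'` with the relations
`(s t)^m = 1` or `(s t)^m = q` according to the sign is an extension of `W` by a group of order two.

Idea of the proof.  Let `W` act on `W × ZMod 2`, where crossing the edge from `w` to `s w` adds the
number of `v` in the inversion set of `w` with `(w⁻¹ s w, v)` in a set of chosen pairs.  For each
rank two coset with sign `-1` exactly one ordered pair of distinct reflections of the coset is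
chosen.  Two rank two cosets which share two reflections have the same reflections and the same
sign, so the sum of the added numbers around a rank two coset is its sign.
-/

namespace Pool.Agent.Results.MP_07fa45_al.SignExtension

universe u v

/-! ### The order of a product of two simple reflections -/

section Geom

open Real Module Polynomial.Chebyshev

variable {B : Type u} (M : CoxeterMatrix B)

/-- The simple root. -/
noncomputable def rt (i : B) : B →₀ ℝ := Finsupp.single i 1

/-- The coroot functional `v ↦ 2 ⟨α_i, v⟩`. -/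
noncomputable def ck (i : B) : Dual ℝ (B →₀ ℝ) :=
  Finsupp.linearCombination ℝ (fun k => -2 * cos (π / M i k))

lemma ck_rt (i k : B) : ck M i (rt k) = -2 * cos (π / M i k) := by
  simp [ck, rt]

lemma ck_self (i : B) : ck M i (rt i) = 2 := by
  rw [ck_rt, M.diagonal]
  simp

/-- The reflections of the geometric representation. -/
noncomputable def rf (i : B) : (B →₀ ℝ) ≃ₗ[ℝ] (B →₀ ℝ) := reflection (ck_self M i)

lemma tval (i j : B) : ck M i (rt j) * ck M j (rt i) - 2 = 2 * cos (2 * (π / M i j)) := by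
  rw [ck_rt, ck_rt, M.symmetric j i, cos_two_mul]
  ring

lemma theta_bounds {m : ℕ} (hm : 3 ≤ m) : 0 < sin (2 * (π / m)) := by
  have hm' : (3 : ℝ) ≤ m := by exact_mod_cast hm
  apply sin_pos_of_pos_of_lt_pi
  · positivity
  · have : π / m ≤ π / 3 := by
      apply div_le_div_of_nonneg_left pi_pos.le (by norm_num) hm'
    have := pi_pos
    linarith

lemma S_val {m : ℕ} (hm : 3 ≤ m) (n : ℤ) :
    (S ℝ n).eval (2 * cos (2 * (π / m))) = sin ((n + 1) * (2 * (π / m))) / sin (2 * (π / m)) := by
  rw [eq_div_iff (theta_bounds hm).ne', S_two_mul_real_cos]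

lemma rf_rel (i j : B) : (rf M i * rf M j) ^ M i j = 1 := by
  rcases Nat.lt_or_ge (M i j) 3 with h | h
  · -- small cases
    interval_cases hm : M i j
    · exact pow_zero _
    · have hij : i = j := by
        by_contra hne
        exact M.off_diagonal i j hne hm
      subst hij
      rw [pow_one]
      calc rf M i * rf M i = (rf M i)⁻¹ * rf M i := by rw [rf, reflection_inv]
        _ = 1 := inv_mul_cancel _
    · have h1 : ck M i (rt j) = 0 := by
        rw [ck_rt, hm]
        simp
      have h2 : ck M j (rt i) = 0 := by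
        rw [ck_rt, M.symmetric j i, hm]
        simp
      apply LinearEquiv.ext
      intro z
      rw [pow_two]
      simp only [LinearEquiv.mul_apply, rf, reflection_apply, map_sub, map_smul, h1, h2, ck_self]
      change _ = z
      module
  · apply LinearEquiv.ext
    intro z
    have key := reflection_mul_reflection_pow_apply (ck_self M i) (ck_self M j) (M i j) z
      (2 * cos (2 * (π / M i j))) (tval M i j).symm
    have hθ := theta_bounds h
    have hm0 : ((M i j : ℕ) : ℝ) ≠ 0 := by
      have : M i j ≠ 0 := by omega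
      exact_mod_cast this
    rw [rf, rf, key]
    change _ = z
    rcases Nat.even_or_odd' (M i j) with ⟨k, hk | hk⟩
    · have e1 : ((M i j : ℤ) - 2) / 2 = k - 1 := by omega
      have e2 : ((M i j : ℤ) - 1) / 2 = k - 1 := by omega
      have hz : (S ℝ ((k : ℤ) - 1)).eval (2 * cos (2 * (π / M i j))) = 0 := by
        rw [S_val h]
        have : (((k : ℤ) - 1 : ℤ) + 1 : ℝ) * (2 * (π / M i j)) = π := by
          have hk' : ((M i j : ℕ) : ℝ) = 2 * k := by exact_mod_cast hk
          push_cast
          field_simp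
          rw [hk']
          ring
        rw [this, sin_pi, zero_div]
      rw [e1, e2, hz]
      simp
    · have e1 : ((M i j : ℤ) - 2) / 2 = k - 1 := by omega
      have e2 : ((M i j : ℤ) - 1) / 2 = k := by omega
      have e3 : ((M i j : ℤ) - 3) / 2 = k - 1 := by omega
      have e4 : (M i j : ℤ) / 2 = k := by omega
      have hz : (S ℝ (k : ℤ)).eval (2 * cos (2 * (π / M i j))) +
          (S ℝ ((k : ℤ) - 1)).eval (2 * cos (2 * (π / M i j))) = 0 := by
        rw [S_val h, S_val h]
        have : ((k : ℤ) + 1 : ℝ) * (2 * (π / M i j)) =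
            2 * π - (((k : ℤ) - 1 : ℤ) + 1 : ℝ) * (2 * (π / M i j)) := by
          have hk' : ((M i j : ℕ) : ℝ) = 2 * k + 1 := by exact_mod_cast hk
          push_cast
          field_simp
          rw [hk']
          ring
        rw [this, sin_two_pi_sub, neg_div, neg_add_cancel]
      rw [e1, e2, e3, e4, hz]
      simp

variable {M} {W : Type v} [Group W] (cs : CoxeterSystem M W)

/-- The geometric representation. -/
noncomputable def geo : W →* ((B →₀ ℝ) ≃ₗ[ℝ] (B →₀ ℝ)) :=
  cs.lift ⟨rf M, rf_rel M⟩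

lemma geo_simple (i : B) : geo cs (cs.simple i) = rf M i :=
  cs.lift_apply_simple (rf_rel M) i

/-- A power of a product of two distinct simple reflections is trivial only if the exponent is a
multiple of the entry of the Coxeter matrix. -/
lemma dvd_of_pow (i j : B) (hij : i ≠ j) (hM : M i j ≠ 0) (n : ℕ)
    (hn : (cs.simple i * cs.simple j) ^ n = 1) : M i j ∣ n := by
  have h1 : (rf M i * rf M j) ^ n = 1 := by
    rw [← geo_simple cs, ← geo_simple cs, ← map_mul, ← map_pow, hn, map_one]
  have key := reflection_mul_reflection_pow_apply_self (ck_self M i) (ck_self M j) n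
      (2 * cos (2 * (π / M i j))) (tval M i j).symm
  have h2 : ((reflection (ck_self M i) * reflection (ck_self M j)) ^ n) (rt i) = rt i := by
    have := congrArg (fun f => f (rt i)) h1
    simpa [rf] using this
  rw [h2] at key
  have hi := congrArg (fun f => f i) key
  have hj := congrArg (fun f => f j) key
  simp only [rt, Finsupp.add_apply, Finsupp.smul_apply, Finsupp.single_eq_same, smul_eq_mul,
    mul_one, Finsupp.single_eq_of_ne hij, Finsupp.single_eq_of_ne hij.symm, mul_zero,
    add_zero, zero_add] at hi hj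
  have h2 : 2 ≤ M i j := by
    have := M.off_diagonal i j hij
    omega
  rcases Nat.eq_or_lt_of_le h2 with hm | hm
  · rw [← hm] at hi ⊢
    have e : (2 : ℝ) * cos (2 * (π / ((2 : ℕ) : ℝ))) = -2 := by
      have : (2 : ℝ) * (π / ((2 : ℕ) : ℝ)) = π := by push_cast; ring
      rw [this, cos_pi]; ring
    rw [e, S_eval_neg_two, S_eval_neg_two] at hi
    rcases Nat.even_or_odd' n with ⟨k, hk | hk⟩
    · exact ⟨k, hk⟩
    · exfalso
      have o1 : Odd (n : ℤ) := ⟨k, by exact_mod_cast hk⟩
      have o2 : Even ((n : ℤ) - 1) := by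
        rw [hk]; exact ⟨k, by push_cast; ring⟩
      rw [Int.negOnePow_odd _ o1, Int.negOnePow_even _ o2] at hi
      push_cast at hi
      linarith
  · have hm3 : 3 ≤ M i j := hm
    have hθ := theta_bounds hm3
    have hmpos : (0 : ℝ) < M i j := by
      have : 0 < M i j := by omega
      exact_mod_cast this
    have hc : 0 < cos (π / M i j) := by
      apply cos_pos_of_mem_Ioo
      constructor
      · have : 0 < π / M i j := by positivity
        have := pi_pos
        linarith
      · apply div_lt_div_of_pos_left pi_pos (by norm_num)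
        exact_mod_cast (by omega : 2 < M i j)
    have hj' : (S ℝ ((n : ℤ) - 1)).eval (2 * cos (2 * (π / M i j))) = 0 := by
      have h3 : ck M j (rt i) = -2 * cos (π / M i j) := by rw [ck_rt, M.symmetric j i]
      rw [rt] at h3
      rw [h3] at hj
      rcases mul_eq_zero.1 hj.symm with h4 | h4
      · exact h4
      · exfalso
        linarith
    rw [hj', add_zero] at hi
    rw [S_val hm3] at hi hj'
    have hs : sin ((n : ℝ) * (2 * (π / M i j))) = 0 := by
      rcases div_eq_zero_iff.1 hj' with h4 | h4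
      · rw [← h4]; congr 1; push_cast; ring
      · exact absurd h4 hθ.ne'
    have hc1 : cos ((n : ℝ) * (2 * (π / M i j))) = 1 := by
      rw [eq_div_iff hθ.ne', one_mul] at hi
      have e : (((n : ℤ) : ℝ) + 1) * (2 * (π / M i j)) =
          (n : ℝ) * (2 * (π / M i j)) + 2 * (π / M i j) := by push_cast; ring
      rw [e, sin_add, hs, zero_mul, zero_add] at hi
      have : (cos ((n : ℝ) * (2 * (π / M i j))) - 1) * sin (2 * (π / M i j)) = 0 := by
        linarith
      rcases mul_eq_zero.1 this with h4 | h4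
      · linarith
      · exact absurd h4 hθ.ne'
    obtain ⟨k, hk⟩ := (cos_eq_one_iff _).1 hc1
    have hk' : (k : ℝ) * M i j = n := by
      have hp := pi_pos.ne'
      field_simp at hk
      linarith
    have hk2 : (k : ℤ) * (M i j : ℤ) = (n : ℤ) := by exact_mod_cast hk'
    have : ((M i j : ℕ) : ℤ) ∣ ((n : ℕ) : ℤ) := ⟨k, by rw [← hk2]; ring⟩
    exact_mod_cast this

end Geom

variable {B : Type u} {M : CoxeterMatrix B} {W : Type v} [Group W] (cs : CoxeterSystem M W)

/-! ### The reflections of a rank two parabolic subgroup -/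

/-- The element `s_j (s_i s_j)^n`. -/
def rr (i j : B) (n : ℤ) : W := cs.simple j * (cs.simple i * cs.simple j) ^ n

lemma swap_pow (i j : B) (n : ℤ) : cs.simple j * (cs.simple i * cs.simple j) ^ n =
    (cs.simple i * cs.simple j) ^ (-n) * cs.simple j := by
  have h1 : (cs.simple j * (cs.simple i * cs.simple j) * (cs.simple j)⁻¹) ^ n =
      cs.simple j * (cs.simple i * cs.simple j) ^ n * (cs.simple j)⁻¹ := conj_zpow
  have h2 : cs.simple j * (cs.simple i * cs.simple j) * (cs.simple j)⁻¹ =
      (cs.simple i * cs.simple j)⁻¹ := by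
    rw [mul_inv_rev, cs.inv_simple, cs.inv_simple, ← mul_assoc, mul_assoc _ (cs.simple j)]
    simp
  rw [h2] at h1
  rw [zpow_neg, ← inv_zpow, h1]
  simp

lemma rr_zero (i j : B) : rr cs i j 0 = cs.simple j := by simp [rr]

lemma rr_neg_one (i j : B) : rr cs i j (-1) = cs.simple i := by
  simp [rr]

lemma rr_conj_pow (i j : B) (n k : ℤ) :
    (cs.simple i * cs.simple j) ^ k * rr cs i j n * ((cs.simple i * cs.simple j) ^ k)⁻¹ =
      rr cs i j (n - 2 * k) := by
  unfold rr
  rw [← mul_assoc]
  have : (cs.simple i * cs.simple j) ^ k * cs.simple j =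
      cs.simple j * (cs.simple i * cs.simple j) ^ (-k) := by
    rw [swap_pow, neg_neg]
  rw [this, mul_assoc, mul_assoc, ← zpow_neg, ← zpow_add, ← zpow_add]
  congr 2
  ring

lemma rr_conj_j (i j : B) (n : ℤ) :
    cs.simple j * rr cs i j n * cs.simple j = rr cs i j (-n) := by
  unfold rr
  rw [cs.simple_mul_simple_cancel_left, swap_pow, neg_neg]

lemma rr_conj_i (i j : B) (n : ℤ) :
    cs.simple i * rr cs i j n * cs.simple i = rr cs i j (-n - 2) := by
  have h := rr_conj_pow cs i j (-n) 1
  rw [zpow_one, ← rr_conj_j, mul_inv_rev, cs.inv_simple, cs.inv_simple] at h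
  have e : -n - 2 * 1 = -n - 2 := by ring
  rw [e] at h
  rw [← h]
  simp only [mul_assoc]
  simp

/-- The set of reflections of the subgroup generated by `s_i` and `s_j`. -/
def TT (i j : B) : Set W := Set.range (rr cs i j)

lemma simple_left_mem (i j : B) : cs.simple i ∈ TT cs i j := ⟨-1, rr_neg_one cs i j⟩

lemma simple_right_mem (i j : B) : cs.simple j ∈ TT cs i j := ⟨0, rr_zero cs i j⟩

lemma ne_one_of_mem (i j : B) {t : W} (ht : t ∈ TT cs i j) : t ≠ 1 := by
  obtain ⟨n, rfl⟩ := ht
  intro h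
  have h1 := congrArg cs.lengthParity h
  have h2 : (Multiplicative.ofAdd (1 : ZMod 2) * Multiplicative.ofAdd (1 : ZMod 2)) = 1 := by
    decide
  rw [rr, map_mul, map_zpow, map_mul, cs.lengthParity_simple, cs.lengthParity_simple, h2,
    one_zpow, mul_one, map_one cs.lengthParity] at h1
  exact absurd h1 (by decide)

/-! ### Parabolic subsets -/

/-- The elements with a word in the letters `I`. -/
def Par (I : Set B) : Set W := {h | ∃ ω : List B, (∀ b ∈ ω, b ∈ I) ∧ cs.wordProd ω = h}

lemma Par_one (I : Set B) : (1 : W) ∈ Par cs I := ⟨[], by simp, by simp⟩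

lemma Par_mul {I : Set B} {g h : W} (hg : g ∈ Par cs I) (hh : h ∈ Par cs I) :
    g * h ∈ Par cs I := by
  obtain ⟨ω, h1, rfl⟩ := hg
  obtain ⟨ω', h2, rfl⟩ := hh
  refine ⟨ω ++ ω', ?_, cs.wordProd_append ω ω'⟩
  intro b hb
  rcases List.mem_append.1 hb with h | h
  · exact h1 b h
  · exact h2 b h

lemma Par_inv {I : Set B} {g : W} (hg : g ∈ Par cs I) : g⁻¹ ∈ Par cs I := by
  obtain ⟨ω, h1, rfl⟩ := hg
  exact ⟨ω.reverse, fun b hb => h1 b (List.mem_reverse.1 hb), cs.wordProd_reverse ω⟩

lemma Par_simple {I : Set B} {i : B} (hi : i ∈ I) : cs.simple i ∈ Par cs I :=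
  ⟨[i], by simpa using hi, by simp⟩

lemma Par_pow {I : Set B} {g : W} (hg : g ∈ Par cs I) (n : ℕ) : g ^ n ∈ Par cs I := by
  induction n with
  | zero => rw [pow_zero]; exact Par_one cs I
  | succ n ih => rw [pow_succ]; exact Par_mul cs ih hg

lemma Par_zpow {I : Set B} {g : W} (hg : g ∈ Par cs I) (n : ℤ) : g ^ n ∈ Par cs I := by
  obtain ⟨k, rfl | rfl⟩ := Int.eq_nat_or_neg n
  · rw [zpow_natCast]; exact Par_pow cs hg k
  · rw [zpow_neg, zpow_natCast]; exact Par_inv cs (Par_pow cs hg k)

lemma TT_subset (i j : B) {t : W} (ht : t ∈ TT cs i j) : t ∈ Par cs {i, j} := by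
  obtain ⟨n, rfl⟩ := ht
  exact Par_mul cs (Par_simple cs (by simp)) (Par_zpow cs (Par_mul cs (Par_simple cs (by simp))
    (Par_simple cs (by simp))) n)

lemma TT_conj (i j : B) {h t : W} (hh : h ∈ Par cs {i, j}) (ht : t ∈ TT cs i j) :
    h * t * h⁻¹ ∈ TT cs i j := by
  obtain ⟨ω, h1, rfl⟩ := hh
  induction ω with
  | nil => simpa using ht
  | cons k ω ih =>
    have h2 := ih (fun b hb => h1 b (List.mem_cons_of_mem _ hb))
    obtain ⟨n, hn⟩ := h2
    have e : cs.wordProd (k :: ω) * t * (cs.wordProd (k :: ω))⁻¹ =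
        cs.simple k * (cs.wordProd ω * t * (cs.wordProd ω)⁻¹) * cs.simple k := by
      rw [cs.wordProd_cons, mul_inv_rev, cs.inv_simple]
      simp only [mul_assoc]
    rw [e, ← hn]
    rcases h1 k List.mem_cons_self with rfl | hk
    · exact ⟨_, (rr_conj_i cs k j n).symm⟩
    · rw [Set.mem_singleton_iff] at hk
      subst hk
      exact ⟨_, (rr_conj_j cs i k n).symm⟩

lemma TT_conj' (i j : B) {h t : W} (hh : h ∈ Par cs {i, j}) (ht : h * t * h⁻¹ ∈ TT cs i j) :
    t ∈ TT cs i j := by
  have := TT_conj cs i j (Par_inv cs hh) ht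
  have e : h⁻¹ * (h * t * h⁻¹) * h⁻¹⁻¹ = t := by group
  rwa [e] at this

/-! ### The inversion cocycle -/

open Classical in
/-- The action of a simple reflection on `W × ZMod 2`. -/
noncomputable def bfun (i : B) : Function.End (W × ZMod 2) := fun p =>
  (cs.simple i * p.1 * cs.simple i, p.2 + if p.1 = cs.simple i then 1 else 0)

open Classical in
lemma bfun_pow (i j : B) (n : ℕ) (t : W) (ε : ZMod 2) :
    ((bfun cs i * bfun cs j) ^ n) (t, ε) =
      ((cs.simple i * cs.simple j) ^ (n : ℤ) * t * ((cs.simple i * cs.simple j) ^ (n : ℤ))⁻¹,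
        ε + ∑ k ∈ Finset.range (2 * n), if t = rr cs i j k then 1 else 0) := by
  induction n with
  | zero => simp; rfl
  | succ n ih =>
    rw [pow_succ']
    change (bfun cs i * bfun cs j) (((bfun cs i * bfun cs j) ^ n) (t, ε)) = _
    rw [ih]
    change bfun cs i (bfun cs j _) = _
    set a := cs.simple i * cs.simple j with ha
    unfold bfun
    dsimp only
    apply Prod.ext
    · dsimp only
      push_cast
      rw [show ((n : ℤ) + 1) = 1 + n by ring, zpow_add, zpow_one, mul_inv_rev, ha, mul_inv_rev,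
        cs.inv_simple, cs.inv_simple]
      simp only [mul_assoc]
    · dsimp only
      rw [show 2 * (n + 1) = 2 * n + 1 + 1 by ring, Finset.sum_range_succ, Finset.sum_range_succ]
      rw [← add_assoc, ← add_assoc]
      have e1 : (a ^ (n : ℤ) * t * (a ^ (n : ℤ))⁻¹ = cs.simple j) ↔
          t = rr cs i j ((2 * n : ℕ) : ℤ) := by
        have := rr_conj_pow cs i j ((2 * n : ℕ) : ℤ) n
        rw [show ((2 * n : ℕ) : ℤ) - 2 * n = 0 by push_cast; ring, rr_zero] at this
        rw [← this, ha]
        simp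
      have e2 : (cs.simple j * (a ^ (n : ℤ) * t * (a ^ (n : ℤ))⁻¹) * cs.simple j = cs.simple i) ↔
          t = rr cs i j ((2 * n + 1 : ℕ) : ℤ) := by
        have h1 := rr_conj_pow cs i j ((2 * n + 1 : ℕ) : ℤ) n
        rw [show ((2 * n + 1 : ℕ) : ℤ) - 2 * n = 1 by push_cast; ring] at h1
        have h2 := rr_conj_j cs i j 1
        rw [rr_neg_one, ← h1] at h2
        rw [← h2, ha]
        simp
      simp only [e1, e2]

lemma aa_pow (i j : B) (k : ℤ) : rr cs i j (k + M i j) = rr cs i j k := by
  unfold rr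
  rw [zpow_add, zpow_natCast, cs.simple_mul_simple_pow, mul_one]

lemma sum_double {m : ℕ} (f : ℕ → ZMod 2) (hf : ∀ k, f (k + m) = f k) :
    ∑ k ∈ Finset.range (2 * m), f k = 0 := by
  rw [two_mul, Finset.sum_range_add]
  have : ∑ x ∈ Finset.range m, f (m + x) = ∑ x ∈ Finset.range m, f x :=
    Finset.sum_congr rfl (fun x _ => by rw [add_comm, hf])
  rw [this]
  exact CharTwo.add_self_eq_zero _

lemma bfun_rel (i j : B) : (bfun cs i * bfun cs j) ^ M i j = 1 := by
  classical
  funext ⟨t, ε⟩
  rw [bfun_pow, zpow_natCast, cs.simple_mul_simple_pow]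
  rw [sum_double (fun k => if t = rr cs i j k then 1 else 0) (fun k => by
    push_cast
    rw [aa_pow])]
  simp
  rfl

/-- The action of `W` on `W × ZMod 2`. -/
noncomputable def bour : W →* Function.End (W × ZMod 2) := cs.lift ⟨bfun cs, bfun_rel cs⟩

lemma bour_simple (i : B) : bour cs (cs.simple i) = bfun cs i :=
  cs.lift_apply_simple (bfun_rel cs) i

/-- The inversion cocycle. -/
noncomputable def eta (w t : W) : ZMod 2 := (bour cs w (t, 0)).2

open Classical in
lemma bour_apply (w t : W) (ε : ZMod 2) : bour cs w (t, ε) = (w * t * w⁻¹, ε + eta cs w t) := by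
  unfold eta
  revert t ε
  refine cs.simple_induction_left (p := fun w => ∀ (t : W) (ε : ZMod 2), bour cs w (t, ε) =
    (w * t * w⁻¹, ε + (bour cs w (t, 0)).2)) w ?_ ?_
  · intro t ε
    rw [map_one]
    change (t, ε) = (1 * t * 1⁻¹, ε + 0)
    simp
  · intro w i ih t ε
    rw [map_mul]
    change bour cs (cs.simple i) (bour cs w (t, ε)) = (_, ε + (bour cs (cs.simple i) (bour cs w (t, 0))).2)
    rw [bour_simple, ih t ε, ih t 0]
    unfold bfun
    dsimp only
    apply Prod.ext
    · dsimp only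
      rw [mul_inv_rev, cs.inv_simple]
      simp only [mul_assoc]
    · dsimp only
      simp only [zero_add, add_assoc]

lemma eta_mul (v w t : W) : eta cs (v * w) t = eta cs w t + eta cs v (w * t * w⁻¹) := by
  have h := congrArg Prod.snd (bour_apply cs (v * w) t 0)
  rw [map_mul] at h
  change (bour cs v (bour cs w (t, 0))).2 = _ at h
  rw [bour_apply, bour_apply] at h
  simpa using h.symm

lemma eta_one (t : W) : eta cs 1 t = 0 := by
  unfold eta
  rw [map_one]
  rfl

open Classical in
lemma eta_simple (i : B) (t : W) : eta cs (cs.simple i) t = if t = cs.simple i then 1 else 0 := by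
  unfold eta
  rw [bour_simple]
  unfold bfun
  simp

lemma eta_simple_self (i : B) : eta cs (cs.simple i) (cs.simple i) = 1 := by
  classical
  rw [eta_simple, if_pos rfl]

lemma eta_inv (w t : W) : eta cs w⁻¹ (w * t * w⁻¹) = eta cs w t := by
  have h := eta_mul cs w⁻¹ w t
  rw [inv_mul_cancel, eta_one] at h
  exact (CharTwo.add_eq_zero.1 h.symm).symm

lemma mem_ris (ω : List B) (t : W) (h : eta cs (cs.wordProd ω) t ≠ 0) :
    t ∈ cs.rightInvSeq ω := by
  classical
  induction ω with
  | nil => rw [cs.wordProd_nil, eta_one] at h; exact absurd rfl h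
  | cons i ω ih =>
    rw [cs.wordProd_cons, eta_mul, eta_simple] at h
    rw [CoxeterSystem.rightInvSeq, List.mem_cons]
    by_cases h1 : cs.wordProd ω * t * (cs.wordProd ω)⁻¹ = cs.simple i
    · left
      rw [← h1]
      group
    · right
      rw [if_neg h1, add_zero] at h
      exact ih h

lemma eta_finite (w : W) : {t | eta cs w t ≠ 0}.Finite := by
  obtain ⟨ω, rfl⟩ := cs.wordProd_surjective w
  exact (List.finite_toSet (cs.rightInvSeq ω)).subset (fun t ht => mem_ris cs ω t ht)

lemma length_lt (w t : W) (h : eta cs w t ≠ 0) : cs.length (w * t) < cs.length w := by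
  obtain ⟨ω, hω, rfl⟩ := cs.exists_isReduced w
  exact (cs.isRightInversion_of_mem_rightInvSeq hω (mem_ris cs ω t h)).2

lemma exists_descent (I : Set B) (h : W) (hI : h ∈ Par cs I) (h1 : h ≠ 1) :
    ∃ i ∈ I, eta cs h (cs.simple i) ≠ 0 := by
  obtain ⟨ω, hω, rfl⟩ := hI
  generalize hn : ω.length = n
  induction n using Nat.strong_induction_on generalizing ω with
  | _ n ih =>
    rcases List.eq_nil_or_concat' ω with rfl | ⟨ω', i, rfl⟩
    · exact absurd cs.wordProd_nil h1
    · have hi : i ∈ I := hω i (by simp)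
      by_cases he : eta cs (cs.wordProd ω') (cs.simple i) = 0
      · refine ⟨i, hi, ?_⟩
        rw [cs.wordProd_append, cs.wordProd_singleton, eta_mul, eta_simple_self]
        simp only [cs.inv_simple, cs.simple_mul_simple_self, one_mul]
        rw [he]
        decide
      · have hm := mem_ris cs ω' _ he
        obtain ⟨k, hk, hk'⟩ := List.getElem_of_mem hm
        have hk2 : k < ω'.length := by rwa [cs.length_rightInvSeq] at hk
        have h3 := cs.wordProd_mul_getD_rightInvSeq ω' k
        rw [List.getD_eq_getElem _ _ hk, hk'] at h3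
        have e : cs.wordProd (ω' ++ [i]) = cs.wordProd (ω'.eraseIdx k) := by
          rw [cs.wordProd_append, cs.wordProd_singleton, h3]
        rw [e] at h1 ⊢
        refine ih (ω'.eraseIdx k).length ?_ (ω'.eraseIdx k) ?_ h1 rfl
        · rw [List.length_eraseIdx_of_lt hk2, ← hn]
          simp
        · intro b hb
          exact hω b (by
            have := List.mem_of_mem_eraseIdx hb
            simp [this])

lemma eta_mem (i j : B) (h t : W) (hh : h ∈ Par cs {i, j}) (ht : eta cs h t ≠ 0) :
    t ∈ TT cs i j := by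
  classical
  obtain ⟨ω, hω, rfl⟩ := hh
  induction ω with
  | nil => rw [cs.wordProd_nil, eta_one] at ht; exact absurd rfl ht
  | cons k ω ih =>
    have hω' : ∀ b ∈ ω, b ∈ ({i, j} : Set B) := fun b hb => hω b (List.mem_cons_of_mem _ hb)
    rw [cs.wordProd_cons, eta_mul, eta_simple] at ht
    by_cases h1 : cs.wordProd ω * t * (cs.wordProd ω)⁻¹ = cs.simple k
    · apply TT_conj' cs i j (h := cs.wordProd ω) ⟨ω, hω', rfl⟩
      rw [h1]
      rcases hω k List.mem_cons_self with rfl | hk
      · exact simple_left_mem cs k j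
      · rw [Set.mem_singleton_iff] at hk
        subst hk
        exact simple_right_mem cs i k
    · rw [if_neg h1, add_zero] at ht
      exact ih hω' ht

/-! ### Two rank two parabolic subgroups sharing two reflections -/

section Kil

variable {i j i' j' : B}

/-- For `h` with `x h x⁻¹` in the other parabolic subgroup, the inversions correspond. -/
lemma eta_transfer (x : W) (h1 : ∀ t ∈ TT cs i' j', eta cs x t = 0) (h : W)
    (hh : h ∈ Par cs {i', j'}) (t : W) (ht : t ∈ TT cs i' j') :
    eta cs h t = eta cs (x * h * x⁻¹) (x * t * x⁻¹) := by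
  have e1 := eta_mul cs x h t
  rw [h1 _ (TT_conj cs i' j' hh ht), add_zero] at e1
  have e2 := eta_mul cs (x * h * x⁻¹) x t
  rw [h1 t ht, zero_add] at e2
  rw [← e1, ← e2]
  congr 1
  group

lemma kil_aux (x : W) (h1 : ∀ t ∈ TT cs i' j', eta cs x t = 0)
    (u v : W) (hu : u ∈ TT cs i' j') (hv : v ∈ TT cs i' j') (huv : u ≠ v)
    (hu' : x * u * x⁻¹ ∈ TT cs i j) (hv' : x * v * x⁻¹ ∈ TT cs i j)
    (k k' : B) (hk : k ∈ ({i', j'} : Set B))
    (hkk : ∀ l ∈ ({i', j'} : Set B), l ≠ k → l = k') :
    x * cs.simple k * x⁻¹ ∈ TT cs i j := by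
  by_contra hcon
  -- every nontrivial `h` with `h` and `x h x⁻¹` in the parabolics has `s_k'` as an inversion
  have key : ∀ h ∈ Par cs {i', j'}, x * h * x⁻¹ ∈ Par cs {i, j} → h ≠ 1 →
      eta cs h (cs.simple k') ≠ 0 ∧ x * cs.simple k' * x⁻¹ ∈ TT cs i j ∧ 
        k' ∈ ({i', j'} : Set B) := by
    intro h hh hxh hne
    obtain ⟨l, hl, hle⟩ := exists_descent cs {i', j'} h hh hne
    have hlT : cs.simple l ∈ TT cs i' j' := eta_mem cs i' j' h _ hh hle
    have hlT' : x * cs.simple l * x⁻¹ ∈ TT cs i j := by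
      apply eta_mem cs i j (x * h * x⁻¹) _ hxh
      rw [← eta_transfer cs x h1 h hh _ hlT]
      exact hle
    by_cases hlk : l = k
    · subst hlk
      exact absurd hlT' hcon
    · have := hkk l hl hlk
      subst this
      exact ⟨hle, hlT', hl⟩
  have huP := TT_subset cs i' j' hu
  have hvP := TT_subset cs i' j' hv
  have key2 : ∀ h ∈ Par cs {i', j'}, x * h * x⁻¹ ∈ Par cs {i, j} → h ≠ 1 → h = cs.simple k' := by
    intro h hh hxh hne
    by_contra hne2
    obtain ⟨e1, e2, e3⟩ := key h hh hxh hne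
    have hs : cs.simple k' ∈ Par cs {i', j'} := Par_simple cs e3
    have hh' : h * cs.simple k' ∈ Par cs {i', j'} := Par_mul cs hh hs
    have hxh' : x * (h * cs.simple k') * x⁻¹ ∈ Par cs {i, j} := by
      have : x * (h * cs.simple k') * x⁻¹ = (x * h * x⁻¹) * (x * cs.simple k' * x⁻¹) := by group
      rw [this]
      exact Par_mul cs hxh (TT_subset cs i j e2)
    have hne' : h * cs.simple k' ≠ 1 := by
      intro h0
      apply hne2
      rw [← cs.inv_simple k']
      exact eq_inv_of_mul_eq_one_left h0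
    obtain ⟨f1, -, -⟩ := key _ hh' hxh' hne'
    rw [eta_mul, eta_simple_self, cs.inv_simple, cs.simple_mul_simple_self, one_mul] at f1
    have z : ∀ a : ZMod 2, a ≠ 0 → 1 + a = 0 := by decide
    exact f1 (z _ e1)
  have a1 := key2 u huP (TT_subset cs i j hu') (ne_one_of_mem cs i' j' hu)
  have a2 := key2 v hvP (TT_subset cs i j hv') (ne_one_of_mem cs i' j' hv)
  exact huv (a1.trans a2.symm)

lemma kil_min (x : W) (h1 : ∀ t ∈ TT cs i' j', eta cs x t = 0)
    (h2 : ∀ t ∈ TT cs i j, eta cs x⁻¹ t = 0)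
    (u v : W) (hu : u ∈ TT cs i' j') (hv : v ∈ TT cs i' j') (huv : u ≠ v)
    (hu' : x * u * x⁻¹ ∈ TT cs i j) (hv' : x * v * x⁻¹ ∈ TT cs i j)
    (k : B) (hk : k ∈ ({i', j'} : Set B)) :
    x * cs.simple k * x⁻¹ = cs.simple i ∨ x * cs.simple k * x⁻¹ = cs.simple j := by
  classical
  have hmem : x * cs.simple k * x⁻¹ ∈ TT cs i j := by
    rcases hk with rfl | hk
    · apply kil_aux cs x h1 u v hu hv huv hu' hv' k j' (by simp)
      intro l hl hlk
      rcases hl with rfl | hl
      · exact absurd rfl hlk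
      · exact hl
    · rw [Set.mem_singleton_iff] at hk
      subst hk
      apply kil_aux cs x h1 u v hu hv huv hu' hv' k i' (by simp)
      intro l hl hlk
      rcases hl with rfl | hl
      · rfl
      · exact absurd hl hlk
  set h' := x * cs.simple k * x⁻¹ with hh'
  obtain ⟨l, hl, hle⟩ := exists_descent cs {i, j} h' (TT_subset cs i j hmem)
    (ne_one_of_mem cs i j hmem)
  have hlT : cs.simple l ∈ TT cs i j := eta_mem cs i j h' _ (TT_subset cs i j hmem) hle
  have e := eta_transfer cs (i' := i) (j' := j) x⁻¹ h2 h' (TT_subset cs i j hmem) _ hlT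
  have e2 : x⁻¹ * h' * x⁻¹⁻¹ = cs.simple k := by rw [hh']; group
  rw [e2, eta_simple] at e
  rw [e] at hle
  have e3 : x⁻¹ * cs.simple l * x⁻¹⁻¹ = cs.simple k := by
    by_contra hcon
    rw [if_neg hcon] at hle
    exact hle rfl
  have e4 : h' = cs.simple l := by
    rw [hh', ← e3]; group
  rw [e4]
  rcases hl with rfl | hl
  · left; rfl
  · right; rw [Set.mem_singleton_iff.1 hl]

/-- An element of minimal length in a double coset. -/
lemma exists_min (g : W) (I I' : Set B) : ∃ h ∈ Par cs I, ∃ h' ∈ Par cs I',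
    ∀ a ∈ Par cs I, ∀ b ∈ Par cs I', cs.length (h * g * h') ≤ cs.length (a * (h * g * h') * b) := by
  let S : Set ℕ := {n | ∃ h ∈ Par cs I, ∃ h' ∈ Par cs I', cs.length (h * g * h') = n}
  have hS : S.Nonempty := ⟨_, 1, Par_one cs I, 1, Par_one cs I', rfl⟩
  obtain ⟨h, hh, h', hh', e⟩ := Nat.sInf_mem hS
  refine ⟨h, hh, h', hh', ?_⟩
  intro a ha b hb
  rw [e]
  apply Nat.sInf_le
  refine ⟨a * h, Par_mul cs ha hh, h' * b, Par_mul cs hh' hb, ?_⟩
  congr 1
  simp only [mul_assoc]

lemma kil (hi : cs.simple i' ≠ cs.simple j') (g : W)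
    (u v : W) (hu : u ∈ TT cs i' j') (hv : v ∈ TT cs i' j') (huv : u ≠ v)
    (hu' : g * u * g⁻¹ ∈ TT cs i j) (hv' : g * v * g⁻¹ ∈ TT cs i j) :
    ∃ h ∈ Par cs {i, j}, ∃ h' ∈ Par cs {i', j'}, ∃ x, x = h * g * h' ∧
      ((x * cs.simple i' * x⁻¹ = cs.simple i ∧ x * cs.simple j' * x⁻¹ = cs.simple j) ∨
        (x * cs.simple i' * x⁻¹ = cs.simple j ∧ x * cs.simple j' * x⁻¹ = cs.simple i)) := by
  obtain ⟨h, hh, h', hh', hmin⟩ := exists_min cs g {i, j} {i', j'}
  refine ⟨h, hh, h', hh', h * g * h', rfl, ?_⟩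
  set x := h * g * h' with hx
  have h1 : ∀ t ∈ TT cs i' j', eta cs x t = 0 := by
    intro t ht
    by_contra hne
    have h3 := length_lt cs x t hne
    have h4 := hmin 1 (Par_one cs _) t (TT_subset cs i' j' ht)
    rw [one_mul] at h4
    omega
  have h2 : ∀ t ∈ TT cs i j, eta cs x⁻¹ t = 0 := by
    intro t ht
    by_contra hne
    have h3 := length_lt cs x⁻¹ t hne
    have h4 := hmin t⁻¹ (Par_inv cs (TT_subset cs i j ht)) 1 (Par_one cs _)
    rw [mul_one, ← cs.length_inv (t⁻¹ * x), mul_inv_rev, inv_inv, ← cs.length_inv x] at h4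
    omega
  have hu1 : h'⁻¹ * u * h' ∈ TT cs i' j' := by
    have := TT_conj cs i' j' (Par_inv cs hh') hu
    rwa [inv_inv] at this
  have hv1 : h'⁻¹ * v * h' ∈ TT cs i' j' := by
    have := TT_conj cs i' j' (Par_inv cs hh') hv
    rwa [inv_inv] at this
  have hu2 : x * (h'⁻¹ * u * h') * x⁻¹ ∈ TT cs i j := by
    have := TT_conj cs i j hh hu'
    have e : x * (h'⁻¹ * u * h') * x⁻¹ = h * (g * u * g⁻¹) * h⁻¹ := by rw [hx]; group
    rwa [e]
  have hv2 : x * (h'⁻¹ * v * h') * x⁻¹ ∈ TT cs i j := by
    have := TT_conj cs i j hh hv'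
    have e : x * (h'⁻¹ * v * h') * x⁻¹ = h * (g * v * g⁻¹) * h⁻¹ := by rw [hx]; group
    rwa [e]
  have huv2 : h'⁻¹ * u * h' ≠ h'⁻¹ * v * h' := by
    intro e
    apply huv
    have := congrArg (fun z => h' * z * h'⁻¹) e
    simpa [mul_assoc] using this
  have k1 := kil_min cs x h1 h2 _ _ hu1 hv1 huv2 hu2 hv2 i' (by simp)
  have k2 := kil_min cs x h1 h2 _ _ hu1 hv1 huv2 hu2 hv2 j' (by simp)
  have hne : x * cs.simple i' * x⁻¹ ≠ x * cs.simple j' * x⁻¹ := by
    intro e
    apply hi
    have := congrArg (fun z => x⁻¹ * z * x) e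
    simpa [mul_assoc] using this
  rcases k1 with k1 | k1 <;> rcases k2 with k2 | k2
  · exact absurd (k1.trans k2.symm) hne
  · exact Or.inl ⟨k1, k2⟩
  · exact Or.inr ⟨k1, k2⟩
  · exact absurd (k1.trans k2.symm) hne

lemma rr_comm (i j : B) (m : ℤ) : rr cs j i m = rr cs i j (-1 - m) := by
  have h := rr_neg_one cs i j
  have e : cs.simple j * cs.simple i = (cs.simple i * cs.simple j)⁻¹ := by
    rw [mul_inv_rev, cs.inv_simple, cs.inv_simple]
  calc rr cs j i m = cs.simple i * (cs.simple i * cs.simple j) ^ (-m) := by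
        rw [rr, e, inv_zpow, ← zpow_neg]
    _ = rr cs i j (-1) * (cs.simple i * cs.simple j) ^ (-m) := by rw [h]
    _ = rr cs i j (-1 - m) := by
        rw [rr, rr, mul_assoc, ← zpow_add, sub_eq_add_neg]

lemma TT_comm (i j : B) : TT cs i j = TT cs j i := by
  apply Set.Subset.antisymm
  · rintro _ ⟨n, rfl⟩
    exact ⟨-1 - n, by rw [rr_comm]; congr 1; ring⟩
  · rintro _ ⟨n, rfl⟩
    exact ⟨-1 - n, by rw [rr_comm]; congr 1; ring⟩

end Kil

/-! ### Sign choices -/

/-- A sign choice: a sign for each pair of distinct generators whose product has finite order,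
invariant under simultaneous conjugation and symmetric. -/
structure IsSignChoice {B : Type u} {M : CoxeterMatrix B} {W : Type v} [Group W]
    (cs : CoxeterSystem M W) (c : B → B → ℤˣ) : Prop where
  conj : ∀ i j i' j' : B, i ≠ j → M i j ≠ 0 → i' ≠ j' → M i' j' ≠ 0 →
    (∃ g : W, g * cs.simple i * g⁻¹ = cs.simple i' ∧ g * cs.simple j * g⁻¹ = cs.simple j') →
      c i j = c i' j'
  symm : ∀ i j : B, i ≠ j → M i j ≠ 0 → c i j = c j i

/-- The relations of the extension: `some i` stands for `s_i` and `none` for `q`. -/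
def signRels {B : Type u} (M : CoxeterMatrix B) (c : B → B → ℤˣ) : Set (FreeGroup (Option B)) :=
  {r | (∃ i, r = FreeGroup.of (some i) ^ 2) ∨
    (r = FreeGroup.of none ^ 2) ∨
    (∃ i, r = (FreeGroup.of none * FreeGroup.of (some i)) *
      (FreeGroup.of (some i) * FreeGroup.of none)⁻¹) ∨
    (∃ i j, i ≠ j ∧ M i j ≠ 0 ∧ c i j = 1 ∧
      r = (FreeGroup.of (some i) * FreeGroup.of (some j)) ^ M i j) ∨
    (∃ i j, i ≠ j ∧ M i j ≠ 0 ∧ c i j = -1 ∧
      r = (FreeGroup.of (some i) * FreeGroup.of (some j)) ^ M i j * (FreeGroup.of none)⁻¹)}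

/-- The group `W'`. -/
abbrev SignExt {B : Type u} (M : CoxeterMatrix B) (c : B → B → ℤˣ) : Type u :=
  PresentedGroup (signRels M c)

section Sign

variable (c : B → B → ℤˣ)

/-- The set of reflections crossed by a rank two coset. -/
def DD (i j : B) (w : W) : Set W := {t | w * t * w⁻¹ ∈ TT cs i j}

lemma simple_ne {i j : B} (hij : i ≠ j) (hM : M i j ≠ 0) : cs.simple i ≠ cs.simple j := by
  intro h
  have h1 := dvd_of_pow cs i j hij hM 1 (by rw [h, cs.simple_mul_simple_self, one_pow])
  exact M.off_diagonal i j hij (Nat.dvd_one.1 h1)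

lemma DD_unique (hc : IsSignChoice cs c) {i j i' j' : B} (hij : i ≠ j) (hM : M i j ≠ 0)
    (hij' : i' ≠ j') (hM' : M i' j' ≠ 0) (w w' u v : W) (huv : u ≠ v)
    (h1 : u ∈ DD cs i j w) (h2 : v ∈ DD cs i j w) (h3 : u ∈ DD cs i' j' w')
    (h4 : v ∈ DD cs i' j' w') : DD cs i j w = DD cs i' j' w' ∧ c i j = c i' j' := by
  have huv' : w' * u * w'⁻¹ ≠ w' * v * w'⁻¹ := by
    intro e
    apply huv
    have := congrArg (fun z => w'⁻¹ * z * w') e
    simpa [mul_assoc] using this
  have e : ∀ t, (w * w'⁻¹) * (w' * t * w'⁻¹) * (w * w'⁻¹)⁻¹ = w * t * w⁻¹ := fun t => by group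
  obtain ⟨h, hh, h', hh', x, hx, hcase⟩ := kil cs (i := i) (j := j) (i' := i') (j' := j')
    (simple_ne cs hij' hM') (w * w'⁻¹) _ _ h3 h4 huv'
    (by rw [e]; exact h1) (by rw [e]; exact h2)
  have hT : ∀ y, x * y * x⁻¹ ∈ TT cs i j ↔ y ∈ TT cs i' j' := by
    have hpow : ∀ n : ℤ, (x * rr cs i' j' n * x⁻¹ = rr cs i j n) ∨
        (x * rr cs i' j' n * x⁻¹ = rr cs j i n) := by
      intro n
      have e1 : x * rr cs i' j' n * x⁻¹ = (x * cs.simple j' * x⁻¹) *
          ((x * cs.simple i' * x⁻¹) * (x * cs.simple j' * x⁻¹)) ^ n := by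
        have : (x * cs.simple i' * x⁻¹) * (x * cs.simple j' * x⁻¹) =
          x * (cs.simple i' * cs.simple j') * x⁻¹ := by group
        rw [this, conj_zpow, rr]
        group
      rcases hcase with ⟨a1, a2⟩ | ⟨a1, a2⟩
      · left; rw [e1, a1, a2, rr]
      · right; rw [e1, a1, a2, rr]
    have hset : ∀ n : ℤ, ∃ k : ℤ, x * rr cs i' j' k * x⁻¹ = rr cs i j n := by
      intro n
      rcases hcase with ⟨a1, a2⟩ | ⟨a1, a2⟩
      · refine ⟨n, ?_⟩
        have e1 : x * rr cs i' j' n * x⁻¹ = (x * cs.simple j' * x⁻¹) *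
          ((x * cs.simple i' * x⁻¹) * (x * cs.simple j' * x⁻¹)) ^ n := by
          have : (x * cs.simple i' * x⁻¹) * (x * cs.simple j' * x⁻¹) =
            x * (cs.simple i' * cs.simple j') * x⁻¹ := by group
          rw [this, conj_zpow, rr]
          group
        rw [e1, a1, a2, rr]
      · refine ⟨-1 - n, ?_⟩
        have e1 : x * rr cs i' j' (-1 - n) * x⁻¹ = (x * cs.simple j' * x⁻¹) *
          ((x * cs.simple i' * x⁻¹) * (x * cs.simple j' * x⁻¹)) ^ (-1 - n) := by
          have : (x * cs.simple i' * x⁻¹) * (x * cs.simple j' * x⁻¹) =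
            x * (cs.simple i' * cs.simple j') * x⁻¹ := by group
          rw [this, conj_zpow, rr]
          group
        have e2 : rr cs i j n = rr cs j i (-1 - n) := rr_comm cs j i n
        rw [e1, a1, a2, e2, rr]
    intro y
    constructor
    · rintro ⟨n, hn⟩
      obtain ⟨k, hk⟩ := hset n
      refine ⟨k, ?_⟩
      rw [hn] at hk
      have := congrArg (fun z => x⁻¹ * z * x) hk
      simpa [mul_assoc] using this
    · rintro ⟨n, rfl⟩
      rcases hpow n with h5 | h5
      · rw [h5]; exact ⟨n, rfl⟩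
      · rw [h5, TT_comm]; exact ⟨n, rfl⟩
  constructor
  · ext t
    change w * t * w⁻¹ ∈ TT cs i j ↔ w' * t * w'⁻¹ ∈ TT cs i' j'
    have e1 : w * t * w⁻¹ =
        h⁻¹ * (x * (h'⁻¹ * (w' * t * w'⁻¹) * h') * x⁻¹) * h⁻¹⁻¹ := by
      rw [hx]; group
    constructor
    · intro ht
      rw [e1] at ht
      have h5 := TT_conj' cs i j (Par_inv cs hh) ht
      rw [hT] at h5
      have h6 := TT_conj cs i' j' hh' h5
      have e2 : h' * (h'⁻¹ * (w' * t * w'⁻¹) * h') * h'⁻¹ = w' * t * w'⁻¹ := by group
      rwa [e2] at h6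
    · intro ht
      rw [e1]
      apply TT_conj cs i j (Par_inv cs hh)
      rw [hT]
      have := TT_conj cs i' j' (Par_inv cs hh') ht
      rwa [inv_inv] at this
  · rcases hcase with ⟨a1, a2⟩ | ⟨a1, a2⟩
    · exact (hc.conj i' j' i j hij' hM' hij hM ⟨x, a1, a2⟩).symm
    · have hM2 : M j i ≠ 0 := by rwa [M.symmetric j i]
      rw [hc.symm i j hij hM]
      exact (hc.conj i' j' j i hij' hM' hij.symm hM2 ⟨x, a1, a2⟩).symm

/-- The sets of reflections of the rank two cosets with sign `-1`. -/
def Good (D : Set W) : Prop :=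
  ∃ i j w, i ≠ j ∧ M i j ≠ 0 ∧ c i j = -1 ∧ D = DD cs i j w

open Classical in
/-- A choice of two distinct elements in each set with at least two elements. -/
noncomputable def pick (D : Set W) : W × W :=
  if h : ∃ p : W × W, p.1 ∈ D ∧ p.2 ∈ D ∧ p.1 ≠ p.2 then h.choose else (1, 1)

lemma pick_spec {i j : B} (hij : i ≠ j) (hM : M i j ≠ 0) (w : W) :
    (pick (DD cs i j w)).1 ∈ DD cs i j w ∧ (pick (DD cs i j w)).2 ∈ DD cs i j w ∧
      (pick (DD cs i j w)).1 ≠ (pick (DD cs i j w)).2 := by
  have h : ∃ p : W × W, p.1 ∈ DD cs i j w ∧ p.2 ∈ DD cs i j w ∧ p.1 ≠ p.2 := by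
    refine ⟨(w⁻¹ * cs.simple i * w, w⁻¹ * cs.simple j * w), ?_, ?_, ?_⟩
    · change w * (w⁻¹ * cs.simple i * w) * w⁻¹ ∈ TT cs i j
      have : w * (w⁻¹ * cs.simple i * w) * w⁻¹ = cs.simple i := by group
      rw [this]
      exact simple_left_mem cs i j
    · change w * (w⁻¹ * cs.simple j * w) * w⁻¹ ∈ TT cs i j
      have : w * (w⁻¹ * cs.simple j * w) * w⁻¹ = cs.simple j := by group
      rw [this]
      exact simple_right_mem cs i j
    · intro e
      apply simple_ne cs hij hM
      have := congrArg (fun z => w * z * w⁻¹) e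
      simpa [mul_assoc] using this
  rw [pick, dif_pos h]
  exact h.choose_spec

open Classical in
/-- The indicator of the chosen pairs. -/
noncomputable def pp (u v : W) : ZMod 2 :=
  if ∃ D, Good cs c D ∧ pick D = (u, v) then 1 else 0

lemma pp_ne {u v : W} (h : pp cs c u v ≠ 0) : ∃ D, Good cs c D ∧ pick D = (u, v) := by
  classical
  by_contra hcon
  rw [pp, if_neg hcon] at h
  exact h rfl

lemma pp_self (u : W) : pp cs c u u = 0 := by
  by_contra h
  obtain ⟨D, ⟨i, j, w, hij, hM, -, rfl⟩, hp⟩ := pp_ne cs c h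
  have := (pick_spec cs hij hM w).2.2
  rw [hp] at this
  exact this rfl

/-- The reflections crossed, starting from `w`. -/
def UU (i j : B) (w : W) (n : ℤ) : W := w⁻¹ * rr cs i j n * w

lemma UU_mem (i j : B) (w : W) (n : ℤ) : UU cs i j w n ∈ DD cs i j w := by
  refine ⟨n, ?_⟩
  rw [UU]
  group

lemma UU_inj {i j : B} (hij : i ≠ j) (hM : M i j ≠ 0) (w : W) {k l : ℕ} (hk : k < M i j)
    (hl : l < M i j) (h : UU cs i j w k = UU cs i j w l) : k = l := by
  have h1 : rr cs i j k = rr cs i j l := by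
    have := congrArg (fun z => w * z * w⁻¹) h
    simpa [UU, mul_assoc] using this
  have h2 : (cs.simple i * cs.simple j) ^ k = (cs.simple i * cs.simple j) ^ l := by
    have := mul_left_cancel h1
    exact_mod_cast this
  have key : ∀ k l : ℕ, k ≤ l → l < M i j →
      (cs.simple i * cs.simple j) ^ k = (cs.simple i * cs.simple j) ^ l → k = l := by
    intro k l hkl hl h2
    obtain ⟨n, rfl⟩ := Nat.exists_eq_add_of_le hkl
    rw [pow_add] at h2
    have h3 : (cs.simple i * cs.simple j) ^ n = 1 := by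
      have : (cs.simple i * cs.simple j) ^ k * 1 =
        (cs.simple i * cs.simple j) ^ k * (cs.simple i * cs.simple j) ^ n := by
        rw [mul_one]; exact h2
      exact (mul_left_cancel this).symm
    have h4 := dvd_of_pow cs i j hij hM n h3
    have h5 : n = 0 := Nat.eq_zero_of_dvd_of_lt h4 (by omega)
    omega
  rcases le_total k l with hkl | hkl
  · exact key k l hkl hl h2
  · exact (key l k hkl hk h2.symm).symm

lemma UU_surj {i j : B} (hM : M i j ≠ 0) (w t : W) (ht : t ∈ DD cs i j w) :
    ∃ k : ℕ, k < M i j ∧ UU cs i j w k = t := by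
  obtain ⟨n, hn⟩ := ht
  have hpos : (0 : ℤ) < M i j := by
    have : 0 < M i j := Nat.pos_of_ne_zero hM
    exact_mod_cast this
  have h1 := Int.emod_nonneg n hpos.ne'
  have h2 := Int.emod_lt_of_pos n hpos
  refine ⟨(n % M i j).toNat, by omega, ?_⟩
  have e : (((n % M i j).toNat : ℕ) : ℤ) = n % M i j := Int.toNat_of_nonneg h1
  have h3 : rr cs i j (n % M i j) = rr cs i j n := by
    conv_rhs => rw [← Int.emod_add_mul_ediv n (M i j)]
    unfold rr
    rw [zpow_add, zpow_mul, zpow_natCast, cs.simple_mul_simple_pow, one_zpow, mul_one]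
  rw [UU, e, h3, hn]
  group

open Classical in
/-- The sum of the indicator over a rank two coset. -/
lemma pp_sum (hc : IsSignChoice cs c) {i j : B} (hij : i ≠ j) (hM : M i j ≠ 0) (w : W) :
    ∑ k ∈ Finset.range (M i j), ∑ l ∈ Finset.range (M i j),
      pp cs c (UU cs i j w k) (UU cs i j w l) = if c i j = -1 then 1 else 0 := by
  have hspec : ∀ k l : ℤ, pp cs c (UU cs i j w k) (UU cs i j w l) ≠ 0 →
      c i j = -1 ∧ pick (DD cs i j w) = (UU cs i j w k, UU cs i j w l) := by
    intro k l h
    obtain ⟨D, ⟨i', j', w', hij', hM', hc', rfl⟩, hp⟩ := pp_ne cs c h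
    have h1 := pick_spec cs hij' hM' w'
    rw [hp] at h1
    have h2 := DD_unique cs c hc hij hM hij' hM' w w' _ _ h1.2.2 (UU_mem cs i j w k)
      (UU_mem cs i j w l) h1.1 h1.2.1
    refine ⟨h2.2.trans hc', ?_⟩
    rw [h2.1, hp]
  by_cases hcm : c i j = -1
  · rw [if_pos hcm]
    have h1 := pick_spec cs hij hM w
    obtain ⟨k, hk, hk'⟩ := UU_surj cs hM w _ h1.1
    obtain ⟨l, hl, hl'⟩ := UU_surj cs hM w _ h1.2.1
    rw [Finset.sum_eq_single k, Finset.sum_eq_single l]
    · rw [pp, if_pos]
      exact ⟨DD cs i j w, ⟨i, j, w, hij, hM, hcm, rfl⟩, by rw [hk', hl']⟩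
    · intro l' hl'' hne
      by_contra hcon
      have h2 := (hspec _ _ hcon).2
      apply hne
      apply UU_inj cs hij hM w (Finset.mem_range.1 hl'') hl
      rw [hl', h2]
    · intro h; exact absurd (Finset.mem_range.2 hl) h
    · intro k' hk'' hne
      apply Finset.sum_eq_zero
      intro l' hl''
      by_contra hcon
      have h2 := (hspec _ _ hcon).2
      apply hne
      apply UU_inj cs hij hM w (Finset.mem_range.1 hk'') hk
      rw [hk', h2]
    · intro h; exact absurd (Finset.mem_range.2 hk) h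
  · rw [if_neg hcm]
    apply Finset.sum_eq_zero
    intro k _
    apply Finset.sum_eq_zero
    intro l _
    by_contra hcon
    exact hcm (hspec _ _ hcon).1

/-- The inversion set as a finitely supported function. -/
noncomputable def Nf (w : W) : W →₀ ZMod 2 :=
  Finsupp.ofSupportFinite (eta cs w) (eta_finite cs w)

lemma Nf_apply (w t : W) : Nf cs w t = eta cs w t := rfl

lemma Nf_simple_mul (i : B) (w : W) :
    Nf cs (cs.simple i * w) = Nf cs w + Finsupp.single (w⁻¹ * cs.simple i * w) 1 := by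
  classical
  ext t
  rw [Finsupp.add_apply, Nf_apply, Nf_apply, eta_mul, eta_simple, Finsupp.single_apply]
  congr 1
  have : (w * t * w⁻¹ = cs.simple i) ↔ (w⁻¹ * cs.simple i * w = t) := by
    constructor
    · intro h; rw [← h]; group
    · intro h; rw [← h]; group
  simp only [this]

/-- The value of the crossing cochain. -/
noncomputable def FF (w u : W) : ZMod 2 :=
  Finsupp.linearCombination (ZMod 2) (pp cs c u) (Nf cs w)

lemma FF_simple_mul (i : B) (w u : W) :
    FF cs c (cs.simple i * w) u = FF cs c w u + pp cs c u (w⁻¹ * cs.simple i * w) := by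
  rw [FF, Nf_simple_mul, map_add, Finsupp.linearCombination_single, one_smul, FF]

lemma sact_invol (i : B) : Function.Involutive (fun p : W × ZMod 2 => (cs.simple i * p.1,
    p.2 + FF cs c p.1 (p.1⁻¹ * cs.simple i * p.1))) := by
  rintro ⟨w, ε⟩
  have e : (cs.simple i * w)⁻¹ * cs.simple i * (cs.simple i * w) = w⁻¹ * cs.simple i * w := by
    rw [mul_inv_rev, cs.inv_simple]
    simp only [mul_assoc, cs.simple_mul_simple_cancel_left]
  apply Prod.ext
  · simp
  · dsimp only
    rw [e, FF_simple_mul, pp_self, add_zero, add_assoc, CharTwo.add_self_eq_zero, add_zero]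

/-- The action of a generator. -/
noncomputable def sact (i : B) : Equiv.Perm (W × ZMod 2) :=
  Function.Involutive.toPerm _ (sact_invol cs c i)

lemma sact_apply (i : B) (w : W) (ε : ZMod 2) : sact cs c i (w, ε) =
    (cs.simple i * w, ε + FF cs c w (w⁻¹ * cs.simple i * w)) := rfl

lemma qact_invol (W : Type v) : Function.Involutive (fun p : W × ZMod 2 => (p.1, p.2 + 1)) := by
  rintro ⟨w, ε⟩
  apply Prod.ext
  · rfl
  · change ε + 1 + 1 = ε
    rw [add_assoc]
    have : (1 : ZMod 2) + 1 = 0 := by decide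
    rw [this, add_zero]

/-- The action of `q`. -/
def qact (W : Type v) : Equiv.Perm (W × ZMod 2) :=
  Function.Involutive.toPerm _ (qact_invol W)

omit [Group W] in
lemma qact_apply (w : W) (ε : ZMod 2) : qact W (w, ε) = (w, ε + 1) := rfl

lemma UU_even (i j : B) (w : W) (n : ℕ) :
    ((cs.simple i * cs.simple j) ^ n * w)⁻¹ * cs.simple j *
      ((cs.simple i * cs.simple j) ^ n * w) = UU cs i j w ((2 * n : ℕ) : ℤ) := by
  have h := rr_conj_pow cs i j ((2 * n : ℕ) : ℤ) n
  rw [show ((2 * n : ℕ) : ℤ) - 2 * n = 0 by push_cast; ring, rr_zero] at h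
  have key : ∀ a r s' : W, a * r * a⁻¹ = s' → (a * w)⁻¹ * s' * (a * w) = w⁻¹ * r * w := by
    rintro a r s' rfl
    group
  rw [zpow_natCast] at h
  exact key _ _ _ h

lemma UU_odd (i j : B) (w : W) (n : ℕ) :
    (cs.simple j * ((cs.simple i * cs.simple j) ^ n * w))⁻¹ * cs.simple i *
      (cs.simple j * ((cs.simple i * cs.simple j) ^ n * w)) =
        UU cs i j w ((2 * n + 1 : ℕ) : ℤ) := by
  have h1 := rr_conj_pow cs i j ((2 * n + 1 : ℕ) : ℤ) n
  rw [show ((2 * n + 1 : ℕ) : ℤ) - 2 * n = 1 by push_cast; ring] at h1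
  have h2 := rr_conj_j cs i j 1
  rw [rr_neg_one, ← h1] at h2
  have key : ∀ a r s' b : W, b * b = 1 → b * (a * r * a⁻¹) * b = s' →
      (b * (a * w))⁻¹ * s' * (b * (a * w)) = w⁻¹ * r * w := by
    rintro a r s' b hb rfl
    have hb' : b⁻¹ = b := inv_eq_of_mul_eq_one_left hb
    have e : (b * (a * w))⁻¹ * (b * (a * r * a⁻¹) * b) * (b * (a * w)) =
        (a * w)⁻¹ * (b⁻¹ * b) * (a * r * a⁻¹) * (b * b) * (a * w) := by
      group
    rw [e, hb]
    group
  rw [zpow_natCast] at h2
  exact key _ _ _ _ (cs.simple_mul_simple_self j) h2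

lemma Nf_pow (i j : B) (w : W) (n : ℕ) :
    Nf cs ((cs.simple i * cs.simple j) ^ n * w) = Nf cs w +
      ∑ l ∈ Finset.range (2 * n), Finsupp.single (UU cs i j w l) 1 := by
  induction n with
  | zero => simp
  | succ n ih =>
    rw [pow_succ', mul_assoc, mul_assoc, Nf_simple_mul, Nf_simple_mul, UU_even, UU_odd, ih,
      show 2 * (n + 1) = 2 * n + 1 + 1 by ring, Finset.sum_range_succ, Finset.sum_range_succ]
    simp only [add_assoc]

lemma FF_pow (i j : B) (w u : W) (n : ℕ) :
    FF cs c ((cs.simple i * cs.simple j) ^ n * w) u = FF cs c w u +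
      ∑ l ∈ Finset.range (2 * n), pp cs c u (UU cs i j w l) := by
  rw [FF, Nf_pow, map_add, map_sum, FF]
  congr 1
  apply Finset.sum_congr rfl
  intro l _
  rw [Finsupp.linearCombination_single, one_smul]

lemma sact_pow (i j : B) (w : W) (ε : ZMod 2) (n : ℕ) :
    ((sact cs c i * sact cs c j) ^ n) (w, ε) = ((cs.simple i * cs.simple j) ^ n * w,
      ε + ∑ k ∈ Finset.range (2 * n), (FF cs c w (UU cs i j w k) +
        ∑ l ∈ Finset.range k, pp cs c (UU cs i j w k) (UU cs i j w l))) := by
  induction n with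
  | zero => simp
  | succ n ih =>
    rw [pow_succ', Equiv.Perm.mul_apply, ih, Equiv.Perm.mul_apply, sact_apply, sact_apply,
      UU_even, UU_odd, FF_simple_mul, FF_pow, FF_pow, UU_even]
    apply Prod.ext
    · dsimp only
      rw [pow_succ']
      simp only [mul_assoc]
    · dsimp only
      rw [show 2 * (n + 1) = 2 * n + 1 + 1 by ring, Finset.sum_range_succ, Finset.sum_range_succ,
        Finset.sum_range_succ _ (2 * n)]
      simp only [add_assoc]

lemma double_sum (m : ℕ) (q : ℕ → ℕ → ZMod 2) (h1 : ∀ k l, q (k + m) l = q k l)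
    (h2 : ∀ k l, q k (l + m) = q k l) :
    ∑ k ∈ Finset.range (2 * m), ∑ l ∈ Finset.range k, q k l =
      ∑ k ∈ Finset.range m, ∑ l ∈ Finset.range m, q k l := by
  rw [two_mul, Finset.sum_range_add]
  have : ∑ x ∈ Finset.range m, ∑ l ∈ Finset.range (m + x), q (m + x) l =
      ∑ x ∈ Finset.range m, (∑ l ∈ Finset.range m, q x l) +
        ∑ x ∈ Finset.range m, (∑ l ∈ Finset.range x, q x l) := by
    rw [← Finset.sum_add_distrib]
    apply Finset.sum_congr rfl
    intro x _
    rw [Finset.sum_range_add]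
    congr 1
    · apply Finset.sum_congr rfl
      intro l _
      rw [add_comm, h1]
    · apply Finset.sum_congr rfl
      intro l _
      rw [add_comm m x, h1, add_comm m l, h2]
  rw [this, add_comm, add_assoc, CharTwo.add_self_eq_zero, add_zero]

lemma UU_periodic (i j : B) (w : W) (k : ℕ) :
    UU cs i j w ((k + M i j : ℕ) : ℤ) = UU cs i j w k := by
  unfold UU
  push_cast
  rw [aa_pow]

open Classical in
lemma sact_rel (hc : IsSignChoice cs c) {i j : B} (hij : i ≠ j) (hM : M i j ≠ 0) (w : W)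
    (ε : ZMod 2) :
    ((sact cs c i * sact cs c j) ^ M i j) (w, ε) = (w, ε + if c i j = -1 then 1 else 0) := by
  rw [sact_pow, cs.simple_mul_simple_pow, one_mul, Finset.sum_add_distrib,
    sum_double (fun k => FF cs c w (UU cs i j w k)) (fun k => by rw [UU_periodic]),
    double_sum (M i j) (fun k l => pp cs c (UU cs i j w k) (UU cs i j w l))
      (fun k l => by rw [UU_periodic]) (fun k l => by rw [UU_periodic]),
    pp_sum cs c hc hij hM w, zero_add]

/-- The images of the generators. -/
noncomputable def gens : Option B → Equiv.Perm (W × ZMod 2)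
  | some i => sact cs c i
  | none => qact W

lemma gens_rel (hc : IsSignChoice cs c) : ∀ r ∈ signRels M c, FreeGroup.lift (gens cs c) r = 1 := by
  classical
  rintro r (⟨i, rfl⟩ | rfl | ⟨i, rfl⟩ | ⟨i, j, hij, hM, h1, rfl⟩ | ⟨i, j, hij, hM, h1, rfl⟩)
  · rw [map_pow, FreeGroup.lift_apply_of]
    ext1 x
    rw [pow_two, Equiv.Perm.mul_apply]
    exact sact_invol cs c i x
  · rw [map_pow, FreeGroup.lift_apply_of]
    ext1 x
    rw [pow_two, Equiv.Perm.mul_apply]
    exact qact_invol W x
  · rw [map_mul, map_inv, mul_inv_eq_one, map_mul, map_mul, FreeGroup.lift_apply_of,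
      FreeGroup.lift_apply_of]
    ext1 ⟨w, ε⟩
    rw [Equiv.Perm.mul_apply, Equiv.Perm.mul_apply]
    change qact W (sact cs c i (w, ε)) = sact cs c i (qact W (w, ε))
    rw [sact_apply, qact_apply, qact_apply, sact_apply]
    apply Prod.ext
    · rfl
    · dsimp only
      ring
  · rw [map_pow, map_mul, FreeGroup.lift_apply_of, FreeGroup.lift_apply_of]
    ext1 ⟨w, ε⟩
    change ((sact cs c i * sact cs c j) ^ M i j) (w, ε) = (w, ε)
    rw [sact_rel cs c hc hij hM, h1, if_neg (by decide), add_zero]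
  · rw [map_mul, map_inv, mul_inv_eq_one, map_pow, map_mul, FreeGroup.lift_apply_of,
      FreeGroup.lift_apply_of, FreeGroup.lift_apply_of]
    ext1 ⟨w, ε⟩
    change ((sact cs c i * sact cs c j) ^ M i j) (w, ε) = (w, ε + 1)
    rw [sact_rel cs c hc hij hM, h1, if_pos rfl]

lemma q_ne_one (hc : IsSignChoice cs c) : (PresentedGroup.of none : SignExt M c) ≠ 1 := by
  intro h
  have h1 := congrArg (PresentedGroup.toGroup (gens_rel cs c hc)) h
  rw [PresentedGroup.toGroup.of, map_one] at h1
  have h2 := congrArg (fun f => (f ((1 : W), (0 : ZMod 2))).2) h1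
  change (0 : ZMod 2) + 1 = 0 at h2
  exact absurd h2 (by decide)

end Sign

/-! ### The exact sequence -/

section Exact

variable (c : B → B → ℤˣ)

/-- The images in `W` of the generators. -/
def projGen : Option B → W
  | some i => cs.simple i
  | none => 1

lemma projGen_rel : ∀ r ∈ signRels M c, FreeGroup.lift (projGen cs) r = 1 := by
  rintro r (⟨i, rfl⟩ | rfl | ⟨i, rfl⟩ | ⟨i, j, hij, hM, h1, rfl⟩ | ⟨i, j, hij, hM, h1, rfl⟩)
  · rw [map_pow, FreeGroup.lift_apply_of, projGen, cs.simple_sq]
  · rw [map_pow, FreeGroup.lift_apply_of, projGen, one_pow]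
  · simp [projGen]
  · rw [map_pow, map_mul, FreeGroup.lift_apply_of, FreeGroup.lift_apply_of]
    exact cs.simple_mul_simple_pow i j
  · rw [map_mul, map_pow, map_mul, map_inv, FreeGroup.lift_apply_of, FreeGroup.lift_apply_of,
      FreeGroup.lift_apply_of]
    simp [projGen]

/-- The projection `W' → W`, with `s ↦ s` and `q ↦ 1`. -/
def proj : SignExt M c →* W := PresentedGroup.toGroup (projGen_rel cs c)

lemma proj_some (i : B) : proj cs c (PresentedGroup.of (some i)) = cs.simple i :=
  PresentedGroup.toGroup.of _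

lemma proj_none : proj cs c (PresentedGroup.of none) = 1 :=
  PresentedGroup.toGroup.of _

/-- The central element. -/
def qq (M : CoxeterMatrix B) (c : B → B → ℤˣ) : SignExt M c := PresentedGroup.of none

lemma q_sq : qq M c ^ 2 = 1 :=
  PresentedGroup.one_of_mem (rels := signRels M c) (Or.inr (Or.inl rfl))

lemma q_central (x : SignExt M c) : x * qq M c = qq M c * x := by
  have h : x ∈ Subgroup.centralizer {qq M c} := by
    apply PresentedGroup.generated_by
    intro j
    rw [Subgroup.mem_centralizer_singleton_iff]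
    rcases j with _ | i
    · rfl
    · have h1 : PresentedGroup.mk (signRels M c)
          ((FreeGroup.of none * FreeGroup.of (some i)) *
            (FreeGroup.of (some i) * FreeGroup.of none)⁻¹) = 1 :=
        PresentedGroup.one_of_mem (Or.inr (Or.inr (Or.inl ⟨i, rfl⟩)))
      rw [map_mul, map_inv, mul_inv_eq_one, map_mul, map_mul] at h1
      exact h1.symm
  rw [Subgroup.mem_centralizer_singleton_iff] at h
  exact h

/-- The subgroup generated by `q`. -/
def ZZ (M : CoxeterMatrix B) (c : B → B → ℤˣ) : Subgroup (SignExt M c) :=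
  Subgroup.zpowers (qq M c)

instance : (ZZ M c).Normal := by
  constructor
  intro n hn g
  obtain ⟨k, rfl⟩ := Subgroup.mem_zpowers_iff.1 hn
  have : g * qq M c ^ k * g⁻¹ = qq M c ^ k := by
    rw [← conj_zpow, q_central, mul_assoc, mul_inv_cancel, mul_one]
  rw [this]
  exact hn

lemma mem_ZZ {x : SignExt M c} (hx : x ∈ ZZ M c) : x = 1 ∨ x = qq M c := by
  obtain ⟨k, rfl⟩ := Subgroup.mem_zpowers_iff.1 hx
  have h2 := q_sq (M := M) c
  rcases Int.even_or_odd' k with ⟨l, rfl | rfl⟩
  · left
    rw [zpow_mul]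
    have : qq M c ^ (2 : ℤ) = 1 := by exact_mod_cast h2
    rw [this, one_zpow]
  · right
    rw [zpow_add_one, zpow_mul]
    have : qq M c ^ (2 : ℤ) = 1 := by exact_mod_cast h2
    rw [this, one_zpow, one_mul]

lemma s_sq (i : B) : (PresentedGroup.of (some i) : SignExt M c) ^ 2 = 1 :=
  PresentedGroup.one_of_mem (rels := signRels M c) (Or.inl ⟨i, rfl⟩)

lemma st_pow (i j : B) (hij : i ≠ j) (hM : M i j ≠ 0) :
    ((PresentedGroup.of (some i) : SignExt M c) * PresentedGroup.of (some j)) ^ M i j ∈
      ZZ M c := by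
  rcases Int.units_eq_one_or (c i j) with h | h
  · have h1 : PresentedGroup.mk (signRels M c)
        ((FreeGroup.of (some i) * FreeGroup.of (some j)) ^ M i j) = 1 :=
      PresentedGroup.one_of_mem (Or.inr (Or.inr (Or.inr (Or.inl ⟨i, j, hij, hM, h, rfl⟩))))
    rw [map_pow, map_mul] at h1
    change (PresentedGroup.mk (signRels M c) (FreeGroup.of (some i)) *
      PresentedGroup.mk (signRels M c) (FreeGroup.of (some j))) ^ M i j ∈ _
    rw [h1]
    exact Subgroup.one_mem _
  · have h1 : PresentedGroup.mk (signRels M c)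
        ((FreeGroup.of (some i) * FreeGroup.of (some j)) ^ M i j * (FreeGroup.of none)⁻¹) = 1 :=
      PresentedGroup.one_of_mem (Or.inr (Or.inr (Or.inr (Or.inr ⟨i, j, hij, hM, h, rfl⟩))))
    rw [map_mul, map_inv, mul_inv_eq_one, map_pow, map_mul] at h1
    change (PresentedGroup.mk (signRels M c) (FreeGroup.of (some i)) *
      PresentedGroup.mk (signRels M c) (FreeGroup.of (some j))) ^ M i j ∈ _
    rw [h1]
    exact Subgroup.mem_zpowers _

lemma back_rel : M.IsLiftable (fun i => ((PresentedGroup.of (some i) : SignExt M c) :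
    SignExt M c ⧸ ZZ M c)) := by
  intro i j
  by_cases hij : i = j
  · subst hij
    rw [M.diagonal, pow_one, ← QuotientGroup.mk_mul, ← pow_two, s_sq]
    rfl
  · by_cases hM : M i j = 0
    · rw [hM, pow_zero]
    · rw [← QuotientGroup.mk_mul, ← QuotientGroup.mk_pow, QuotientGroup.eq_one_iff]
      exact st_pow c i j hij hM

lemma ker_proj (x : SignExt M c) (hx : proj cs c x = 1) : x = 1 ∨ x = qq M c := by
  have h : (cs.lift ⟨_, back_rel c⟩).comp (proj cs c) = QuotientGroup.mk' (ZZ M c) := by
    apply PresentedGroup.ext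
    intro j
    rcases j with _ | i
    · rw [MonoidHom.comp_apply, proj_none, map_one, QuotientGroup.mk'_apply, eq_comm,
        QuotientGroup.eq_one_iff]
      exact Subgroup.mem_zpowers _
    · rw [MonoidHom.comp_apply, proj_some, cs.lift_apply_simple]
      rfl
  have h1 := congrArg (fun f => f x) h
  simp only [MonoidHom.comp_apply, hx, map_one] at h1
  have h2 : (x : SignExt M c ⧸ ZZ M c) = 1 := h1.symm
  rw [QuotientGroup.eq_one_iff] at h2
  exact mem_ZZ c h2

end Exact

/-- **Main result.**  For every Coxeter system `(W, S)` and every sign choice `c`, the sequence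
`1 → ℤ/2 → W' → W → 1` is exact, where `ι` sends the generator to `q` and `π` sends each `s` to
`s` and `q` to `1`. -/
theorem result {B : Type u} (M : CoxeterMatrix B) {W : Type v} [Group W]
    (cs : CoxeterSystem M W) (c : B → B → ℤˣ) (hc : IsSignChoice cs c) :
    ∃ (ι : Multiplicative (ZMod 2) →* SignExt M c) (π : SignExt M c →* W),
      ι (Multiplicative.ofAdd 1) = PresentedGroup.of none ∧
      (∀ i, π (PresentedGroup.of (some i)) = cs.simple i) ∧
      π (PresentedGroup.of none) = 1 ∧
      Function.Injective ι ∧ ι.range = π.ker ∧ Function.Surjective π := by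
  have hq := q_ne_one cs c hc
  let ι : Multiplicative (ZMod 2) →* SignExt M c :=
    AddMonoidHom.toMultiplicativeLeft (ZMod.lift 2 ⟨(zmultiplesHom (Additive (SignExt M c)))
      (Additive.ofMul (qq M c)), by
        have := q_sq (M := M) c
        rw [zmultiplesHom_apply, ← ofMul_zpow]
        exact_mod_cast congrArg Additive.ofMul this⟩)
  have hι : ι (Multiplicative.ofAdd 1) = qq M c := by
    change Additive.toMul (ZMod.lift 2 _ (((1 : ℤ) : ZMod 2))) = _
    rw [ZMod.lift_coe]
    simp
  have hι2 : ∀ z : Multiplicative (ZMod 2), z = 1 ∨ z = Multiplicative.ofAdd 1 := by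
    decide
  refine ⟨ι, proj cs c, hι, proj_some cs c, proj_none cs c, ?_, ?_, ?_⟩
  · rw [injective_iff_map_eq_one]
    intro z hz
    rcases hι2 z with rfl | rfl
    · rfl
    · rw [hι] at hz
      exact absurd hz hq
  · ext x
    rw [MonoidHom.mem_range, MonoidHom.mem_ker]
    constructor
    · rintro ⟨z, rfl⟩
      rcases hι2 z with rfl | rfl
      · rw [map_one, map_one]
      · rw [hι]
        exact proj_none cs c
    · intro hx
      rcases ker_proj cs c x hx with rfl | rfl
      · exact ⟨1, map_one _⟩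
      · exact ⟨_, hι⟩
  · intro w
    refine cs.simple_induction (p := fun w => ∃ x, proj cs c x = w) w ?_ ?_ ?_
    · intro i
      exact ⟨_, proj_some cs c i⟩
    · exact ⟨1, map_one _⟩
    · rintro _ _ ⟨x, rfl⟩ ⟨y, rfl⟩
      exact ⟨x * y, map_mul _ _ _⟩

end Pool.Agent.Results.MP_07fa45_al.SignExtension
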